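import Pool.Agent.helper82.SW.SpecW

/-! sp:WARMB, the one-arm bound of the Cardy part. -/

namespace Pool.Agent.helper82.SW

open MeasureTheory Filter Topology TopologicalSpace

lemma ARMB_event (hCNB : CNB_stmt) (hSDB : SDB_stmt) (U : Finset (ℤ × ℤ)) (x : ℂ) (r R : ℝ)
    (y : ℤ × ℤ) (hy : ‖SC.ps y - x‖ ≤ 1) (m n : ℕ) (hm : 2 * (r + 1) ≤ m) (hn : 2 * (n : ℝ) ≤ R - 1)
    (b : ℤ × ℤ → Bool) (h : SC.ArmE x r R (U.filter fun v => b (sh v) = false)) :
    DP.reach (TP.col b) false (sh y) m n := by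
  obtain ⟨u, w, hc, hu, hw⟩ := h
  refine ⟨sh u, sh w, ?_, ?_, hCNB U b u w hc⟩
  · have h1 := (hSDB.1 y u).1
    have h2 : ‖SC.ps y - SC.ps u‖ ≤ r + 1 := by
      have : SC.ps y - SC.ps u = (SC.ps y - x) - (SC.ps u - x) := by ring
      rw [this]
      exact (norm_sub_le _ _).trans (by linarith)
    have h3 : (DP.sd (sh y) (sh u) : ℝ) ≤ m := by linarith
    exact_mod_cast h3
  · have h1 := (hSDB.1 y w).2
    have h2 : R - 1 ≤ ‖SC.ps y - SC.ps w‖ := by
      have : SC.ps w - x = (SC.ps y - x) - (SC.ps y - SC.ps w) := by ring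
      rw [this] at hw
      have := norm_sub_le (SC.ps y - x) (SC.ps y - SC.ps w)
      linarith
    have h3 : (n : ℝ) ≤ (DP.sd (sh y) (sh w) : ℝ) := by linarith
    exact_mod_cast h3

theorem ARMB (hAVG : AVG_stmt) (hCNB : CNB_stmt) (hSDB : SDB_stmt) : ARMB_stmt := by
  rintro ⟨C, hC, a, ha, hC2⟩
  refine ⟨(C + 1) * 20 ^ a, a, ha, by positivity, ?_⟩
  intro U x r R hr hrR
  have hr0 : 0 < r := by linarith
  have hR0 : 0 < R := by linarith
  have hprob : IsProbabilityMeasure DP.P1 := by unfold DP.P1; infer_instance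
  rw [hAVG.2]
  have hpos : 0 < (20 : ℝ) ^ a * (r / R) ^ a := by positivity
  have hexp : ((20 : ℝ) * (r / R)) ^ a = (20 : ℝ) ^ a * (r / R) ^ a :=
    Real.mul_rpow (by norm_num) (by positivity)
  rcases lt_or_ge R (16 * r) with hcase | hcase
  · -- trivial bound
    have h1 : DP.Pr {b | SC.ArmE x r R (U.filter fun v => b (sh v) = false)} ≤ 1 := by
      unfold DP.Pr
      exact measureReal_le_one
    have h2 : (1 : ℝ) ≤ (20 * (r / R)) ^ a := by
      apply Real.one_le_rpow _ ha.le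
      rw [← mul_div_assoc, le_div_iff₀ hR0]
      linarith
    rw [hexp] at h2
    calc DP.Pr {b | SC.ArmE x r R (U.filter fun v => b (sh v) = false)} ≤ 1 := h1
      _ ≤ 20 ^ a * (r / R) ^ a := h2
      _ ≤ (C + 1) * (20 ^ a * (r / R) ^ a) := le_mul_of_one_le_left hpos.le (by linarith)
      _ = (C + 1) * 20 ^ a * (r / R) ^ a := by ring
  · obtain ⟨y, hy⟩ := hSDB.2 x
    set m := ⌈2 * (r + 1)⌉₊ with hm
    set n := ⌊(R - 1) / 2⌋₊ with hn
    have hm1 : 2 * (r + 1) ≤ m := Nat.le_ceil _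
    have hm2 : (m : ℝ) < 2 * (r + 1) + 1 := Nat.ceil_lt_add_one (by positivity)
    have hn1 : (n : ℝ) ≤ (R - 1) / 2 := Nat.floor_le (by linarith)
    have hn2 : (R - 1) / 2 < (n : ℝ) + 1 := Nat.lt_floor_add_one _
    have hmn : (m : ℝ) ≤ n := by nlinarith
    have hm0 : 1 ≤ m := by
      have : (1 : ℝ) ≤ m := by linarith
      exact_mod_cast this
    have hn0 : (0 : ℝ) < n := by nlinarith
    have h1 : DP.Pr {b | SC.ArmE x r R (U.filter fun v => b (sh v) = false)} ≤
        DP.Pr (TP.Ev fun c => DP.reach c false (sh y) m n) := by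
      unfold DP.Pr
      refine measureReal_mono ?_
      intro b hb
      exact ARMB_event hCNB hSDB U x r R y hy m n hm1 (by linarith) b hb
    have h2 := hC2 false (sh y) m n hm0 (by exact_mod_cast hmn)
    have h3 : ((m : ℝ) / n) ^ a ≤ (20 * (r / R)) ^ a := by
      apply Real.rpow_le_rpow (by positivity) _ ha.le
      rw [← mul_div_assoc, div_le_div_iff₀ hn0 hR0]
      have e1 : (m : ℝ) ≤ 5 * r := by linarith
      have e2 : R / 4 ≤ n := by linarith
      calc (m : ℝ) * R ≤ 5 * r * R := mul_le_mul_of_nonneg_right e1 hR0.le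
        _ = 20 * r * (R / 4) := by ring
        _ ≤ 20 * r * n := mul_le_mul_of_nonneg_left e2 (by positivity)
    rw [hexp] at h3
    calc DP.Pr {b | SC.ArmE x r R (U.filter fun v => b (sh v) = false)}
        ≤ C * ((m : ℝ) / n) ^ a := h1.trans h2
      _ ≤ C * (20 ^ a * (r / R) ^ a) := mul_le_mul_of_nonneg_left h3 hC.le
      _ ≤ (C + 1) * (20 ^ a * (r / R) ^ a) := mul_le_mul_of_nonneg_right (by linarith) hpos.le
      _ = (C + 1) * 20 ^ a * (r / R) ^ a := by ring

end Pool.Agent.helper82.SW
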